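import Pool.Agent.Q297.DecJ

/-!
Every decomposable forward Brownian motion which is also a backward Brownian motion is a two-sided
Brownian motion.
-/

open MeasureTheory ProbabilityTheory Set Filter Topology
open scoped ENNReal NNReal

namespace Pool.Agent.Results.MP_5dec12_pr.DecomposableTwoSided

universe u

section Defs

variable {Ω : Type u} {mΩ : MeasurableSpace Ω}

/-- forward Brownian motion: there are random times `S n → -∞` such that `X` seen from each `S n`
is a standard Brownian motion -/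
def FBM (X : ℝ → Ω → ℝ) (P : Measure Ω) : Prop :=
  ∃ S : ℕ → Ω → ℝ, (∀ n, Measurable (S n)) ∧ (∀ᵐ ω ∂P, Tendsto (fun n => S n ω) atTop atBot) ∧
    ∀ n, IsBrownianReal (fun (t : ℝ≥0) ω => X (S n ω + t) ω - X (S n ω) ω) P

/-- backward Brownian motion -/
def BBM (X : ℝ → Ω → ℝ) (P : Measure Ω) : Prop := FBM (fun t => X (-t)) P

/-- two-sided Brownian motion: for some random time `S` the processes seen from `S` forward and
backward are independent standard Brownian motions -/
def TwoBM (X : ℝ → Ω → ℝ) (P : Measure Ω) : Prop :=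
  ∃ S : Ω → ℝ, Measurable S ∧ IsBrownianReal (fun (t : ℝ≥0) ω => X (S ω + t) ω - X (S ω) ω) P ∧
    IsBrownianReal (fun (t : ℝ≥0) ω => X (S ω - t) ω - X (S ω) ω) P ∧
    IndepFun (fun ω (t : ℝ≥0) => X (S ω + t) ω - X (S ω) ω)
      (fun ω (t : ℝ≥0) => X (S ω - t) ω - X (S ω) ω) P

/-- `B` is a Brownian motion with respect to the filtration `F` -/
def IsBMFor (F : Filtration ℝ≥0 mΩ) (B : ℝ≥0 → Ω → ℝ) (P : Measure Ω) : Prop :=
  IsBrownianReal B P ∧ (∀ t, Measurable[F t] (B t)) ∧
    ∀ s t, s ≤ t → Indep (MeasurableSpace.comap (fun ω => B t ω - B s ω) inferInstance) (F s) P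

/-- the continuous process `Y` is built from independent pieces `(B k on [0, T k])`, where `B k` is
a Brownian motion for `F k` and `T k` is an `F k`-stopping time; the `S k` are the end points -/
def IsPieced (Y : ℝ → Ω → ℝ) (P : Measure Ω) : Prop :=
  ∃ (F : ℤ → Filtration ℝ≥0 mΩ) (B : ℤ → ℝ≥0 → Ω → ℝ) (T : ℤ → Ω → ℝ≥0) (S : ℤ → Ω → ℝ),
    (∀ k, IsBMFor (F k) (B k) P) ∧
    (∀ k, IsStoppingTime (F k) (fun ω => (T k ω : WithTop ℝ≥0))) ∧
    iIndepFun (fun k ω => (T k ω, fun t : ℝ≥0 => B k (min t (T k ω)) ω)) P ∧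
    (∀ ω, S 0 ω = 0) ∧ (∀ k ω, S (k + 1) ω = S k ω + T k ω) ∧
    (∀ᵐ ω ∂P, Tendsto (fun k => S k ω) atTop atTop) ∧
    (∀ᵐ ω ∂P, Tendsto (fun k => S k ω) atBot atBot) ∧
    (∀ t, Measurable (Y t)) ∧ (∀ᵐ ω ∂P, Continuous fun t => Y t ω) ∧
    ∀ᵐ ω ∂P, Y 0 ω = 0 ∧ ∀ k, ∀ t : ℝ≥0, t < T k ω → Y (S k ω + t) ω - Y (S k ω) ω = B k t ω

/-- decomposable: for some random time `U` the process `X` seen from `U` has the law of a process
built from independent pieces (possibly on another probability space) -/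
def Decomposable (X : ℝ → Ω → ℝ) (P : Measure Ω) : Prop :=
  ∃ U : Ω → ℝ, Measurable U ∧ ∃ (Ω₁ : Type u) (_ : MeasurableSpace Ω₁) (P₁ : Measure Ω₁)
    (Y : ℝ → Ω₁ → ℝ), IsPieced Y P₁ ∧
      P₁.map (fun ω t => Y t ω) = P.map (fun ω t => X (U ω + t) ω - X (U ω) ω)

end Defs

/-- **Main theorem.**  Let `X` be decomposable and let one of the following hold: `X` is a backward
Brownian motion (question 1), the time reversal of `X` is decomposable (question 2), or `X` seen
backward from one random time is a Brownian motion.  Then `X` is a two-sided Brownian motion, where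
the random time may use two extra uniform variables `V` independent of `X`: these may live on the
probability space of `X`, or the space is enlarged by them. -/
theorem result {Ω : Type u} [MeasurableSpace Ω] (P : Measure Ω) [IsProbabilityMeasure P]
    (X : ℝ → Ω → ℝ) (hm : ∀ t, Measurable (X t)) (hc : ∀ᵐ ω ∂P, Continuous fun t => X t ω)
    (hX : Decomposable X P)
    (hB : BBM X P ∨ Decomposable (fun t => X (-t)) P ∨ ∃ R : Ω → ℝ, Measurable R ∧
      IsBrownianReal (fun (t : ℝ≥0) ω => X (R ω - t) ω - X (R ω) ω) P) :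
    (∀ V : Ω → ℝ × ℝ, Measurable V → P.map V =
      (volume.restrict (Icc (0 : ℝ) 1)).prod (volume.restrict (Icc (0 : ℝ) 1)) →
      IndepFun (fun ω t => X t ω) V P → TwoBM X P) ∧
    TwoBM (fun t (p : Ω × (ℝ × ℝ)) => X t p.1)
      (P.prod ((volume.restrict (Icc (0 : ℝ) 1)).prod (volume.restrict (Icc (0 : ℝ) 1)))) :=
  Q297.Dec.main P X hm hc hX hB

end Pool.Agent.Results.MP_5dec12_pr.DecomposableTwoSided
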